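import Mathlib
import Pool.Agent.W844.GP.Defs

/-! SPLIT -/

set_option autoImplicit false

open MeasureTheory Filter Topology
open scoped ENNReal

namespace Pool.Agent.W407.GP

open Pool.Agent.W844.VG (V)
open Pool.Agent.W844.GP

variable {d : ℕ}

lemma wt_nil (w : V d → ℝ) : wt w [] = 0 := rfl

lemma wt_cons (w : V d → ℝ) (x : V d) (l : List (V d)) : wt w (x :: l) = w x + wt w l := by
  simp [wt]

lemma wt_append (w : V d → ℝ) (l l' : List (V d)) : wt w (l ++ l') = wt w l + wt w l' := by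
  simp [wt]

lemma wt_eq_sum (w : V d → ℝ) (l : List (V d)) (h : l.Nodup) :
    wt w l = ∑ x ∈ l.toFinset, w x := by
  rw [List.sum_toFinset _ h, wt]

/-- cutting a list -/
lemma cut (w : V d → ℝ) (T c : ℝ) (hw : ∀ x, w x ≤ T) (hT : 0 ≤ T) : ∀ (l : List (V d)) (c : ℝ),
    0 < c → c ≤ wt w l → ∃ l1 l2, l = l1 ++ l2 ∧ c ≤ wt w l1 ∧ wt w l1 ≤ c + T := by
  intro l
  induction l with
  | nil =>
    intro c h0 h
    rw [wt_nil] at h
    exact absurd h (not_le.2 h0)
  | cons x l ih =>
    intro c h0 h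
    rw [wt_cons] at h
    by_cases hx : c ≤ w x
    · refine ⟨[x], l, rfl, ?_, ?_⟩
      · rw [wt_cons, wt_nil]; linarith
      · rw [wt_cons, wt_nil]; linarith [hw x]
    · push Not at hx
      obtain ⟨l1, l2, h1, h2, h3⟩ := ih (c - w x) (by linarith) (by linarith)
      refine ⟨x :: l1, l2, by rw [h1]; rfl, ?_, ?_⟩
      · rw [wt_cons]; linarith
      · rw [wt_cons]; linarith

lemma cube_finite (a : V d) (R : ℕ) : (Cube a R).Finite := by
  have : Cube a R ⊆ ↑(Fintype.piFinset fun j => Finset.Ico (a j) (a j + R)) := by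
    intro z hz
    rw [Finset.mem_coe, Fintype.mem_piFinset]
    intro j
    rw [Finset.mem_Ico]
    exact hz j
  exact (Finset.finite_toSet _).subset this

theorem split (hBK : S_BK) : S_SPLIT := by
  intro d ν _ T hT hν R c
  classical
  set F0 : Finset (Finset (V d)) := (cube_finite (0 : V d) R).toFinset.powerset.filter
    (fun s => ∃ l : List (V d), IsP l ∧ (∀ z ∈ l, z ∈ Cube 0 R) ∧ l.toFinset = s) with hF0
  have hF : ∀ s, s ∈ F0 ↔ ∃ l : List (V d), IsP l ∧ (∀ z ∈ l, z ∈ Cube 0 R) ∧ l.toFinset = s := by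
    intro s
    rw [hF0, Finset.mem_filter, Finset.mem_powerset]
    constructor
    · rintro ⟨_, h⟩
      exact h
    · rintro ⟨l, h1, h2, rfl⟩
      refine ⟨?_, l, h1, h2, rfl⟩
      intro z hz
      rw [Set.Finite.mem_toFinset]
      exact h2 z (List.mem_toFinset.1 hz)
  have hbig : {w : V d → ℝ | ∃ f ∈ F0, c ≤ ∑ x ∈ f, w x} = {w | Big w 0 R c} := by
    ext w
    simp only [Set.mem_setOf_eq]
    constructor
    · rintro ⟨f, hf, h⟩
      obtain ⟨l, h1, h2, rfl⟩ := (hF f).1 hf
      exact ⟨l, h1, h2, by rw [wt_eq_sum w l h1.2]; exact h⟩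
    · rintro ⟨l, h1, h2, h⟩
      exact ⟨l.toFinset, (hF _).2 ⟨l, h1, h2, rfl⟩, by rw [← wt_eq_sum w l h1.2]; exact h⟩
  have key := hBK d ν 2 (fun _ => F0) (fun _ => c)
  rw [hbig] at key
  rw [Finset.prod_const, Finset.card_univ, Fintype.card_fin] at key
  refine le_trans ?_ key
  -- a.s. bound
  have hae : ∀ᵐ w ∂law ν d, ∀ x, w x ≤ T := by
    rw [ae_all_iff]
    intro x
    have h1 := measurePreserving_eval_infinitePi (fun _ : V d => ν) x
    have h2 : ∀ᵐ t ∂ν, t ≤ T := by
      rw [ae_iff]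
      have : {a : ℝ | ¬ a ≤ T} = Set.Ioi T := by ext t; simp
      rw [this]
      exact hν
    exact h1.quasiMeasurePreserving.ae h2
  refine measure_mono_ae ?_
  filter_upwards [hae] with w hw
  intro hw2
  obtain ⟨l, h1, h2, h3⟩ := hw2
  change ∃ f : Fin 2 → Finset (V d), (∀ j, f j ∈ F0) ∧
    (∀ j j', j ≠ j' → Disjoint (f j) (f j')) ∧ ∀ j, c ≤ ∑ x ∈ f j, w x
  rcases le_or_gt c 0 with hc | hc
  · refine ⟨fun _ => ∅, fun j => ?_, fun j j' _ => Finset.disjoint_empty_left _, fun j => ?_⟩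
    · rw [hF]
      exact ⟨[], ⟨List.isChain_nil, List.nodup_nil⟩, by simp, rfl⟩
    · simpa using hc
  · obtain ⟨l1, l2, e, h4, h5⟩ := cut w T c hw hT l c hc (by linarith)
    have h6 : c ≤ wt w l2 := by
      rw [e, wt_append] at h3
      linarith
    have hch : l1.IsChain adj ∧ l2.IsChain adj := by
      have := h1.1
      rw [e] at this
      exact ⟨this.left_of_append, this.right_of_append⟩
    have hnd := h1.2
    rw [e, List.nodup_append] at hnd
    obtain ⟨n1, n2, n3⟩ := hnd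
    refine ⟨![l1.toFinset, l2.toFinset], ?_, ?_, ?_⟩
    · intro j
      fin_cases j
      · exact (hF _).2 ⟨l1, ⟨hch.1, n1⟩, fun z hz => h2 z (by rw [e]; exact List.mem_append_left _ hz), rfl⟩
      · exact (hF _).2 ⟨l2, ⟨hch.2, n2⟩, fun z hz => h2 z (by rw [e]; exact List.mem_append_right _ hz), rfl⟩
    · have hd : Disjoint l1.toFinset l2.toFinset := by
        rw [Finset.disjoint_left]
        intro z hz hz'
        exact n3 z (List.mem_toFinset.1 hz) z (List.mem_toFinset.1 hz') rfl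
      intro j j' hjj
      fin_cases j <;> fin_cases j'
      · exact absurd rfl hjj
      · exact hd
      · exact hd.symm
      · exact absurd rfl hjj
    · intro j
      fin_cases j
      · simpa using (wt_eq_sum w l1 n1) ▸ h4
      · simpa using (wt_eq_sum w l2 n2) ▸ h6

end Pool.Agent.W407.GP
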